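import Pool.Agent.H160R2.HF.Defs

/-!
Project LF (helper328): flows in almost all lifts of a cubic graph (MP_e59a69_co, MP_974d84_co).
-/

set_option autoImplicit false

namespace Pool.Agent.N328.LF
open Finset Pool.Agent.H160R2.HF

/-- The `N`-lift of the multigraph `B` given by the permutations `p e` of `Fin N`, `e` an edge of
`B`: the vertices are the pairs `(v, i)`, the edges are the pairs `(e, i)`, and the edge `(e, i)`
goes from `(t e, i)` to `(h e, p e i)`. -/
def lift {V E : Type} (B : OrGraph V E) {N : ℕ} (p : E → Equiv.Perm (Fin N)) :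
    OrGraph (V × Fin N) (E × Fin N) where
  t x := (B.t x.1, x.2)
  h x := (B.h x.1, p x.1 x.2)

/-- every nonempty proper set of vertices has a boundary edge -/
def Connected {V E : Type} [Fintype V] [Fintype E] [DecidableEq V] (B : OrGraph V E) : Prop :=
  ∀ X : Finset V, X.Nonempty → Xᶜ.Nonempty → (B.cut X).Nonempty

/-- the number of subsets of an `N`-set with at most `d` elements -/
def vol (N d : ℕ) : ℕ := ∑ i ∈ range (d + 1), N.choose i

end Pool.Agent.N328.LF
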