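import Pool.Agent.N328.LF.Exp
import Pool.Agent.N622.LF.Str
import Pool.Agent.TH583.FO.Main
import Pool.Agent.H185C.Final

/-!
Assembly: almost all lifts of a connected bridgeless cubic graph have a `1/2`-flow-pair.
-/

set_option autoImplicit false

namespace Pool.Agent.N328.LF
open Finset Pool.Agent.H160R2.HF

variable {V E : Type} [Fintype V] [Fintype E] [DecidableEq V] [DecidableEq E]

theorem main
    (hdet : ∀ (q : ℕ) (V E : Type) [Fintype V] [Fintype E] [DecidableEq V] [DecidableEq E]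
      (G : OrGraph V E), G.Cubic →
      (∀ X : Finset V, 2 * X.card ≤ Fintype.card V → X.card ≤ q * (G.cut X).card) →
      (∀ X : Finset V, X.card ≤ 4 ^ (10 * q + 5) → X.card ≤ (G.cut X).card + 1) →
      ∀ F : Finset E, G.IsTwoFactor F →
      (∀ X : Finset V, G.cut X ∩ F = ∅ → Odd X.card → 5 ≤ X.card) →
      ∃ φ₂ φ₄ : E → ℤ, G.IsHalfFlowPair φ₂ φ₄ ∧ ∀ e, φ₂ e ≠ 0 ↔ e ∈ F)
    (B : OrGraph V E) (hc : B.Cubic) (hb : B.Bridgeless) (hB : Connected B)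
    (F : Finset E) (hF : B.IsTwoFactor F)
    (h3 : ∀ X : Finset V, (B.cut X).card = 3 → (B.cut X ∩ F).Nonempty) :
    ∃ C : ℝ, ∀ N : ℕ, 1 ≤ N →
      (({p : E → Equiv.Perm (Fin N) | ¬ ∃ φ₂ φ₄ : E × Fin N → ℤ,
        (lift B p).IsHalfFlowPair φ₂ φ₄ ∧ ∀ x, φ₂ x ≠ 0 ↔ x.1 ∈ F}.ncard : ℕ) : ℝ) ≤
        C / N * ((N.factorial : ℝ) ^ Fintype.card E) := by
  classical
  obtain ⟨q, hq, hq2⟩ := exp_lift B hc hB
  obtain ⟨C, hC⟩ := hq2 (4 ^ (10 * q + 5))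
  refine ⟨C, fun N hN => le_trans ?_ (hC N hN)⟩
  rw [Nat.cast_le]
  apply Set.ncard_le_ncard _ (Set.toFinite _)
  intro p hp hgood
  apply hp
  obtain ⟨s1, s2, s3⟩ := Pool.Agent.N622.LF.str V E B hc hb F hF h3 N p
  obtain ⟨φ₂, φ₄, h, h'⟩ := hdet q _ _ (lift B p) s1 hgood.1 hgood.2 (F ×ˢ univ) s2 s3
  refine ⟨φ₂, φ₄, h, fun x => ?_⟩
  rw [h' x, mem_product]
  simp

theorem main' 
    (hdet : ∀ (q : ℕ) (V E : Type) [Fintype V] [Fintype E] [DecidableEq V] [DecidableEq E]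
      (G : OrGraph V E), G.Cubic →
      (∀ X : Finset V, 2 * X.card ≤ Fintype.card V → X.card ≤ q * (G.cut X).card) →
      (∀ X : Finset V, X.card ≤ 4 ^ (10 * q + 5) → X.card ≤ (G.cut X).card + 1) →
      ∀ F : Finset E, G.IsTwoFactor F →
      (∀ X : Finset V, G.cut X ∩ F = ∅ → Odd X.card → 5 ≤ X.card) →
      ∃ φ₂ φ₄ : E → ℤ, G.IsHalfFlowPair φ₂ φ₄ ∧ ∀ e, φ₂ e ≠ 0 ↔ e ∈ F)
    (B : OrGraph V E) (hc : B.Cubic) (hb : B.Bridgeless) (hB : Connected B) :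
    ∃ C : ℝ, ∀ N : ℕ, 1 ≤ N →
      (({p : E → Equiv.Perm (Fin N) | ¬ ∃ φ₂ φ₄ : E × Fin N → ℤ,
        (lift B p).IsHalfFlowPair φ₂ φ₄}.ncard : ℕ) : ℝ) ≤
        C / N * ((N.factorial : ℝ) ^ Fintype.card E) := by
  obtain ⟨F, hF, h3, _⟩ := Pool.Agent.TH583.FO.factor B hc hb (fun _ => 0) (fun _ => le_rfl)
  obtain ⟨C, hC⟩ := main hdet B hc hb hB F hF h3
  refine ⟨C, fun N hN => le_trans ?_ (hC N hN)⟩
  rw [Nat.cast_le]
  apply Set.ncard_le_ncard _ (Set.toFinite _)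
  intro p hp h
  obtain ⟨φ₂, φ₄, h1, _⟩ := h
  exact hp ⟨φ₂, φ₄, h1⟩

end Pool.Agent.N328.LF
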