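import Pool.Agent.N286.LF.U1
import Pool.Agent.N849.LF.Small
import Pool.Agent.N415.LF.U2
import Pool.Agent.N966.LF.Vol
import Pool.Agent.N492.LF.Big

/-!
Almost all lifts of a connected cubic graph are expanders, and small sets of vertices of them do
not span two circuits.
-/

set_option autoImplicit false

namespace Pool.Agent.N328.LF
open Finset Pool.Agent.H160R2.HF

variable {V E : Type} [Fintype V] [Fintype E] [DecidableEq V] [DecidableEq E]

/-- expansion `1 / q`, and small sets span at most as many edges as they have vertices -/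
def Good {W D : Type} [Fintype W] [Fintype D] [DecidableEq W] (q k₀ : ℕ) (G : OrGraph W D) : Prop :=
  (∀ X : Finset W, 2 * X.card ≤ Fintype.card W → X.card ≤ q * (G.cut X).card) ∧
    ∀ X : Finset W, X.card ≤ k₀ → X.card ≤ (G.cut X).card + 1

theorem exp_lift (B : OrGraph V E) (hc : B.Cubic) (hB : Connected B) :
    ∃ q : ℕ, 1 ≤ q ∧ ∀ k₀ : ℕ, ∃ C : ℝ, ∀ N : ℕ, 1 ≤ N →
      (({p : E → Equiv.Perm (Fin N) | ¬ Good q k₀ (lift B p)}.ncard : ℕ) : ℝ) ≤
        C / N * ((N.factorial : ℝ) ^ Fintype.card E) := by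
  classical
  obtain ⟨c, C₁, hc0, h1⟩ := Pool.Agent.N849.LF.small Pool.Agent.N286.LF.u1 V E B hc 0
  obtain ⟨d, C₂, hd0, h2⟩ := Pool.Agent.N492.LF.big Pool.Agent.N415.LF.u2
    Pool.Agent.N966.LF.vol_le Pool.Agent.N966.LF.choose_ge V E B hc hB c hc0
  refine ⟨max 2 ⌈(Fintype.card V : ℝ) / d⌉₊, le_trans (by norm_num) (le_max_left _ _), ?_⟩
  intro k₀
  obtain ⟨c', C₃, hc0', h3⟩ := Pool.Agent.N849.LF.small Pool.Agent.N286.LF.u1 V E B hc k₀
  refine ⟨C₁ + C₂ + C₃, ?_⟩
  intro N hN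
  have hN' : (0 : ℝ) < N := by exact_mod_cast hN
  have hsub : {p : E → Equiv.Perm (Fin N) |
      ¬ Good (max 2 ⌈(Fintype.card V : ℝ) / d⌉₊) k₀ (lift B p)} ⊆
      ({p : E → Equiv.Perm (Fin N) | ∃ X : Finset (V × Fin N), X.Nonempty ∧
        ((X.card ≤ 0 ∧ ((lift B p).cut X).card + 2 ≤ X.card) ∨
          ((X.card : ℝ) ≤ c * N ∧ 2 * ((lift B p).cut X).card < X.card))} ∪
      {p : E → Equiv.Perm (Fin N) | ∃ X : Finset (V × Fin N),
        c * N ≤ X.card ∧ 2 * X.card ≤ Fintype.card V * N ∧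
          (((lift B p).cut X).card : ℝ) ≤ d * N}) ∪
      {p : E → Equiv.Perm (Fin N) | ∃ X : Finset (V × Fin N), X.Nonempty ∧
        ((X.card ≤ k₀ ∧ ((lift B p).cut X).card + 2 ≤ X.card) ∨
          ((X.card : ℝ) ≤ c' * N ∧ 2 * ((lift B p).cut X).card < X.card))} := by
    intro p hp
    by_contra hcon
    simp only [Set.mem_union, Set.mem_ofPred_eq, not_or, not_exists] at hcon hp
    obtain ⟨⟨g1, g2⟩, g3⟩ := hcon
    apply hp
    refine ⟨fun X hX => ?_, fun X hX => ?_⟩
    · rw [Fintype.card_prod, Fintype.card_fin] at hX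
      rcases X.eq_empty_or_nonempty with rfl | hne
      · simp
      by_cases hs : (X.card : ℝ) ≤ c * N
      · have h4 := g1 X
        have h5 : ¬ (2 * ((lift B p).cut X).card < X.card) := fun h => h4 ⟨hne, Or.inr ⟨hs, h⟩⟩
        calc X.card ≤ 2 * ((lift B p).cut X).card := by omega
          _ ≤ _ := Nat.mul_le_mul_right _ (le_max_left _ _)
      · have h4 := g2 X
        have h5 : d * N < ((lift B p).cut X).card := by
          by_contra h
          exact h4 ⟨le_of_not_ge hs, hX, not_lt.1 h⟩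
        have h6 : (Fintype.card V : ℝ) / d ≤ (max 2 ⌈(Fintype.card V : ℝ) / d⌉₊ : ℕ) :=
          (Nat.le_ceil _).trans (by exact_mod_cast le_max_right _ _)
        have h7 : (X.card : ℝ) ≤ Fintype.card V * N := by
          have : (2 * X.card : ℝ) ≤ Fintype.card V * N := by exact_mod_cast hX
          have h0 : (0 : ℝ) ≤ X.card := Nat.cast_nonneg _
          linarith
        have h8 : (X.card : ℝ) ≤ (max 2 ⌈(Fintype.card V : ℝ) / d⌉₊ : ℕ) *
            ((lift B p).cut X).card := by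
          calc (X.card : ℝ) ≤ Fintype.card V * N := h7
            _ = (Fintype.card V : ℝ) / d * (d * N) := by field_simp
            _ ≤ (max 2 ⌈(Fintype.card V : ℝ) / d⌉₊ : ℕ) * (d * N) := by gcongr
            _ ≤ _ := by gcongr
        exact_mod_cast h8
    · rcases X.eq_empty_or_nonempty with rfl | hne
      · simp
      have h4 := g3 X
      have h5 : ¬ (((lift B p).cut X).card + 2 ≤ X.card) := fun h => h4 ⟨hne, Or.inl ⟨hX, h⟩⟩
      omega
  have h4 := Set.ncard_le_ncard hsub (Set.toFinite _)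
  have h5 := h4.trans (Set.ncard_union_le _ _)
  have h6 := h5.trans (Nat.add_le_add_right (Set.ncard_union_le _ _) _)
  have h7 := h1 N hN
  have h8 := h2 N hN
  have h9 := h3 N hN
  have h10 : ((({p : E → Equiv.Perm (Fin N) |
      ¬ Good (max 2 ⌈(Fintype.card V : ℝ) / d⌉₊) k₀ (lift B p)}.ncard : ℕ)) : ℝ) ≤ _ :=
    Nat.cast_le.2 h6
  refine h10.trans ?_
  push_cast
  calc _ ≤ C₁ / N * ((N.factorial : ℝ) ^ Fintype.card E) + C₂ / N * ((N.factorial : ℝ) ^ Fintype.card E)
        + C₃ / N * ((N.factorial : ℝ) ^ Fintype.card E) := add_le_add (add_le_add h7 h8) h9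
    _ = _ := by ring

end Pool.Agent.N328.LF
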