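import Pool.Agent.N622.LF.Str
import Pool.Agent.N328.LF.Exp
import Pool.Agent.N835.LF.Det
import Pool.Agent.TH583.FO.Main

/-!
Project LF (helper328): `1/2`-flow-pairs in almost all lifts, with prescribed support of the 2-flow.
The proof of `str` is that of helper622.
-/

set_option autoImplicit false
set_option linter.unusedSectionVars false

namespace Pool.Agent.N328.LF

open Finset Pool.Agent.H160R2.HF Pool.Agent.N328.LF
open Pool.Agent.N622.LF (deg_lift noloop)

variable {V E : Type} [Fintype V] [Fintype E] [DecidableEq V] [DecidableEq E]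

theorem str (V E : Type) [Fintype V] [Fintype E] [DecidableEq V] [DecidableEq E]
    (B : OrGraph V E) (hc : B.Cubic) (hb : B.Bridgeless) (F : Finset E) (hF : B.IsTwoFactor F)
    (h3 : ∀ X : Finset V, B.cut X ∩ F = ∅ → X.card ≠ 3)
    (N : ℕ) (p : E → Equiv.Perm (Fin N)) :
    (lift B p).Cubic ∧ (lift B p).IsTwoFactor (F ×ˢ univ) ∧
      ∀ X : Finset (V × Fin N), (lift B p).cut X ∩ (F ×ˢ univ) = ∅ → Odd X.card → 5 ≤ X.card := by
  refine ⟨fun x => ?_, fun x => ?_, ?_⟩
  · have h := deg_lift B univ p x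
    rw [univ_product_univ] at h
    rw [h]
    exact hc x.1
  · rw [deg_lift]
    exact hF x.1
  · intro X hcut hodd
    by_contra hlt
    push Not at hlt
    set c : V → ℕ := fun v => (X.filter (fun a => a.1 = v)).card with hcdef
    have hX : X.card = ∑ v, c v :=
      card_eq_sum_card_fiberwise (f := Prod.fst) (t := univ) (fun _ _ => mem_univ _)
    have hiff : ∀ e ∈ F, ∀ i, ((B.t e, i) ∈ X ↔ (B.h e, p e i) ∈ X) := by
      intro e he i
      by_contra hcon
      have : (e, i) ∈ (lift B p).cut X ∩ (F ×ˢ univ) := by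
        rw [mem_inter, mem_product, OrGraph.cut, mem_filter]
        exact ⟨⟨mem_univ _, hcon⟩, he, mem_univ _⟩
      rw [hcut] at this
      exact notMem_empty _ this
    have hcF : ∀ e ∈ F, c (B.t e) = c (B.h e) := by
      intro e he
      refine card_bij (fun a _ => (B.h e, p e a.2)) ?_ ?_ ?_
      · rintro ⟨v, i⟩ ha
        obtain ⟨h1, h2⟩ := mem_filter.1 ha
        simp only at h2
        subst h2
        exact mem_filter.2 ⟨(hiff e he i).1 h1, rfl⟩
      · rintro ⟨v, i⟩ ha ⟨w, j⟩ hb' h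
        obtain ⟨-, h1⟩ := mem_filter.1 ha
        obtain ⟨-, h2⟩ := mem_filter.1 hb'
        simp only at h1 h2
        simp only [Prod.mk.injEq, true_and] at h
        rw [h1, h2, (p e).injective h]
      · rintro ⟨w, j⟩ hb'
        obtain ⟨h1, h2⟩ := mem_filter.1 hb'
        simp only at h2
        subst h2
        refine ⟨(B.t e, (p e).symm j), mem_filter.2 ⟨(hiff e he _).2 ?_, rfl⟩, ?_⟩
        · rw [Equiv.apply_symm_apply]
          exact h1
        · simp
    set Y : Finset V := univ.filter (fun v => c v ≠ 0) with hY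
    have hmemY : ∀ v, v ∈ Y ↔ c v ≠ 0 := fun v => by rw [hY, mem_filter]; simp
    have hXY : X.card = ∑ v ∈ Y, c v := by
      rw [hX, hY, sum_filter_ne_zero]
    have hYX : Y.card ≤ X.card := by
      rw [hXY, card_eq_sum_ones]
      exact sum_le_sum fun v hv => Nat.one_le_iff_ne_zero.2 ((hmemY v).1 hv)
    have hcutF : B.cut Y ∩ F = ∅ := by
      rw [eq_empty_iff_forall_notMem]
      intro e he
      obtain ⟨h1, h2⟩ := mem_inter.1 he
      rw [OrGraph.cut, mem_filter] at h1
      apply h1.2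
      rw [hmemY, hmemY, hcF e h2]
    have hand1 := B.handshake F Y
    rw [hcutF, card_empty, add_zero, sum_congr rfl (fun v _ => hF v), sum_const, smul_eq_mul] at hand1
    have hand2 := B.handshake univ Y
    rw [inter_univ, sum_congr rfl (fun v _ => hc v), sum_const, smul_eq_mul] at hand2
    have hle : (F.filter (fun e => B.t e ∈ Y ∧ B.h e ∈ Y)).card ≤
        (univ.filter (fun e => B.t e ∈ Y ∧ B.h e ∈ Y)).card :=
      card_le_card (filter_subset_filter _ (subset_univ _))
    have hne1 := B.cut_card_ne_one hb Y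
    have hne3 : Y.card ≠ 3 := h3 Y hcutF
    have hne2 : Y.card ≠ 1 := by
      intro h
      obtain ⟨y, hy⟩ := card_eq_one.1 h
      have hpos : 0 < (F.filter (fun e => B.t e ∈ Y ∧ B.h e ∈ Y)).card := by omega
      obtain ⟨e, he⟩ := card_pos.1 hpos
      obtain ⟨-, het, heh⟩ := mem_filter.1 he
      rw [hy, mem_singleton] at het heh
      exact noloop B hc hb e (het.trans heh.symm)
    obtain ⟨k, hk⟩ := hodd
    have hY0 : Y.card ≠ 0 := by
      intro h0
      rw [card_eq_zero] at h0
      rw [h0, sum_empty] at hXY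
      omega
    have hY2 : Y.card = 2 := by omega
    -- an edge of the 2-factor inside
    have hpos : 0 < (F.filter (fun e => B.t e ∈ Y ∧ B.h e ∈ Y)).card := by omega
    obtain ⟨e, he⟩ := card_pos.1 hpos
    obtain ⟨heF, het, heh⟩ := mem_filter.1 he
    have hl := noloop B hc hb e
    have hYe : Y = {B.t e, B.h e} := by
      symm
      apply eq_of_subset_of_card_le
      · intro v hv
        rcases mem_insert.1 hv with rfl | hv
        · exact het
        · rw [mem_singleton.1 hv]
          exact heh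
      · rw [hY2, card_pair hl]
    rw [hYe, sum_pair hl, hcF e heF] at hXY
    omega

/-- a 2-factor without triangles -/
theorem exists_factor (B : OrGraph V E) (hc : B.Cubic) (hb : B.Bridgeless) :
    ∃ F : Finset E, B.IsTwoFactor F ∧ ∀ X : Finset V, B.cut X ∩ F = ∅ → X.card ≠ 3 := by
  obtain ⟨F, hF, h3, _⟩ := Pool.Agent.TH583.FO.factor B hc hb (fun _ => 0) (fun _ => le_rfl)
  refine ⟨F, hF, fun X hX hX3 => ?_⟩
  have hand1 := B.handshake F X
  rw [hX, card_empty, add_zero, sum_congr rfl (fun v _ => hF v), sum_const, smul_eq_mul] at hand1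
  have hand2 := B.handshake univ X
  rw [inter_univ, sum_congr rfl (fun v _ => hc v), sum_const, smul_eq_mul] at hand2
  have hle : (F.filter (fun e => B.t e ∈ X ∧ B.h e ∈ X)).card ≤
      (univ.filter (fun e => B.t e ∈ X ∧ B.h e ∈ X)).card :=
    card_le_card (filter_subset_filter _ (subset_univ _))
  have hne1 := B.cut_card_ne_one hb X
  have h4 : (B.cut X).card = 3 := by omega
  have h5 := h3 X h4
  rw [hX] at h5
  exact not_nonempty_empty h5

/-- **Main theorem**, with prescribed support. -/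
theorem prescribed (B : OrGraph V E) (hc : B.Cubic) (hb : B.Bridgeless) (hB : Connected B)
    (F : Finset E) (hF : B.IsTwoFactor F)
    (h3 : ∀ X : Finset V, B.cut X ∩ F = ∅ → X.card ≠ 3) :
    ∃ C : ℝ, ∀ N : ℕ, 1 ≤ N →
      (({p : E → Equiv.Perm (Fin N) | ¬ ∃ φ₂ φ₄ : E × Fin N → ℤ,
        (lift B p).IsHalfFlowPair φ₂ φ₄ ∧ ∀ x, φ₂ x ≠ 0 ↔ x.1 ∈ F}.ncard : ℕ) : ℝ) ≤
        C / N * ((N.factorial : ℝ) ^ Fintype.card E) := by
  classical
  obtain ⟨q, hq, hq2⟩ := exp_lift B hc hB
  obtain ⟨C, hC⟩ := hq2 (4 ^ (10 * q + 5))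
  refine ⟨C, fun N hN => le_trans ?_ (hC N hN)⟩
  rw [Nat.cast_le]
  apply Set.ncard_le_ncard _ (Set.toFinite _)
  intro p hp hgood
  apply hp
  obtain ⟨s1, s2, s3⟩ := str V E B hc hb F hF h3 N p
  obtain ⟨φ₂, φ₄, h, h'⟩ := Pool.Agent.N835.LF.det q _ _ (lift B p) s1 hgood.1 hgood.2
    (F ×ˢ univ) s2 s3
  refine ⟨φ₂, φ₄, h, fun x => ?_⟩
  rw [h' x, mem_product]
  simp

end Pool.Agent.N328.LF
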