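import Pool.Agent.N328.LF.Defs

/-!
Statements of the tasks of project LF (helper328).
-/

set_option autoImplicit false

namespace Pool.Agent.N328.LF.Stm
open Finset Pool.Agent.H160R2.HF Pool.Agent.N328.LF

/-- LF/DET: cubic expanders without small sets spanning two circuits. -/
theorem det (q : ℕ) (V E : Type) [Fintype V] [Fintype E] [DecidableEq V] [DecidableEq E]
    (G : OrGraph V E) (hc : G.Cubic)
    (hexp : ∀ X : Finset V, 2 * X.card ≤ Fintype.card V → X.card ≤ q * (G.cut X).card)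
    (hsmall : ∀ X : Finset V, X.card ≤ 4 ^ (10 * q + 5) → X.card ≤ (G.cut X).card + 1)
    (F : Finset E) (hF : G.IsTwoFactor F)
    (h5 : ∀ X : Finset V, G.cut X ∩ F = ∅ → Odd X.card → 5 ≤ X.card) :
    ∃ φ₂ φ₄ : E → ℤ, G.IsHalfFlowPair φ₂ φ₄ ∧ ∀ e, φ₂ e ≠ 0 ↔ e ∈ F := by
  sorry

/-- LF/U1: one random permutation, many points of `A` going to `B`. -/
theorem u1 (N : ℕ) (A B : Finset (Fin N)) (r : ℕ) :
    (univ.filter (fun σ : Equiv.Perm (Fin N) => r ≤ (A.filter (fun i => σ i ∈ B)).card)).card *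
      N ^ r ≤ A.card.choose r * B.card ^ r * N.factorial := by
  sorry

/-- LF/SMALL: small sets of vertices of a random lift. -/
theorem small
    (hu1 : ∀ (N : ℕ) (A B : Finset (Fin N)) (r : ℕ),
      (univ.filter (fun σ : Equiv.Perm (Fin N) => r ≤ (A.filter (fun i => σ i ∈ B)).card)).card *
        N ^ r ≤ A.card.choose r * B.card ^ r * N.factorial)
    (V E : Type) [Fintype V] [Fintype E] [DecidableEq V] [DecidableEq E]
    (B : OrGraph V E) (hc : B.Cubic) (k₀ : ℕ) :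
    ∃ c C : ℝ, 0 < c ∧ ∀ N : ℕ, 1 ≤ N →
      (({p : E → Equiv.Perm (Fin N) | ∃ X : Finset (V × Fin N), X.Nonempty ∧
        ((X.card ≤ k₀ ∧ ((lift B p).cut X).card + 2 ≤ X.card) ∨
          ((X.card : ℝ) ≤ c * N ∧ 2 * ((lift B p).cut X).card < X.card))}.ncard : ℕ) : ℝ) ≤
        C / N * ((N.factorial : ℝ) ^ Fintype.card E) := by
  sorry

/-- LF/U2: one random permutation, `σ A` close to `B`. -/
theorem u2 (N : ℕ) (A B : Finset (Fin N)) (d : ℕ) :
    (univ.filter (fun σ : Equiv.Perm (Fin N) =>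
      (univ.filter (fun i => ¬ (i ∈ A ↔ σ i ∈ B))).card ≤ d)).card * N.choose A.card ≤
        N.factorial * vol N d ∧
    (univ.filter (fun σ : Equiv.Perm (Fin N) =>
      (univ.filter (fun i => ¬ (i ∈ A ↔ σ i ∈ B))).card ≤ d)).card * N.choose B.card ≤
        N.factorial * vol N d := by
  sorry

/-- LF/VOL: few small subsets, many subsets of middle size. -/
theorem vol_le (γ : ℝ) (hγ : 0 < γ) : ∃ δ : ℝ, 0 < δ ∧ ∀ N d : ℕ, (d : ℝ) ≤ δ * N →
    (vol N d : ℝ) ≤ (2 : ℝ) ^ (γ * N) := by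
  sorry

/-- LF/VOL, second part. -/
theorem choose_ge (N x : ℕ) (hx : x ≤ N) : 2 ^ (min x (N - x)) ≤ N.choose x := by
  sorry

/-- LF/BIG: large sets of vertices of a random lift. -/
theorem big
    (hu2 : ∀ (N : ℕ) (A B : Finset (Fin N)) (d : ℕ),
      (univ.filter (fun σ : Equiv.Perm (Fin N) =>
        (univ.filter (fun i => ¬ (i ∈ A ↔ σ i ∈ B))).card ≤ d)).card * N.choose A.card ≤
          N.factorial * vol N d ∧
      (univ.filter (fun σ : Equiv.Perm (Fin N) =>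
        (univ.filter (fun i => ¬ (i ∈ A ↔ σ i ∈ B))).card ≤ d)).card * N.choose B.card ≤
          N.factorial * vol N d)
    (hvol : ∀ γ : ℝ, 0 < γ → ∃ δ : ℝ, 0 < δ ∧ ∀ N d : ℕ, (d : ℝ) ≤ δ * N →
      (vol N d : ℝ) ≤ (2 : ℝ) ^ (γ * N))
    (hch : ∀ N x : ℕ, x ≤ N → 2 ^ (min x (N - x)) ≤ N.choose x)
    (V E : Type) [Fintype V] [Fintype E] [DecidableEq V] [DecidableEq E]
    (B : OrGraph V E) (hc : B.Cubic) (hB : Connected B) (c : ℝ) (hc0 : 0 < c) :
    ∃ d C : ℝ, 0 < d ∧ ∀ N : ℕ, 1 ≤ N →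
      (({p : E → Equiv.Perm (Fin N) | ∃ X : Finset (V × Fin N),
        c * N ≤ X.card ∧ 2 * X.card ≤ Fintype.card V * N ∧
          (((lift B p).cut X).card : ℝ) ≤ d * N}.ncard : ℕ) : ℝ) ≤
        C / N * ((N.factorial : ℝ) ^ Fintype.card E) := by
  sorry

/-- LF/STR: structure of a lift. -/
theorem str (V E : Type) [Fintype V] [Fintype E] [DecidableEq V] [DecidableEq E]
    (B : OrGraph V E) (hc : B.Cubic) (hb : B.Bridgeless) (F : Finset E) (hF : B.IsTwoFactor F)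
    (h3 : ∀ X : Finset V, (B.cut X).card = 3 → (B.cut X ∩ F).Nonempty)
    (N : ℕ) (p : E → Equiv.Perm (Fin N)) :
    (lift B p).Cubic ∧ (lift B p).IsTwoFactor (F ×ˢ univ) ∧
      ∀ X : Finset (V × Fin N), (lift B p).cut X ∩ (F ×ˢ univ) = ∅ → Odd X.card → 5 ≤ X.card := by
  sorry

end Pool.Agent.N328.LF.Stm
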